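import Mathlib

/-!
# Rounding for totally unimodular matrices

If `A` is totally unimodular, `A x = b` with `b` integral, and `g` is a cost vector, there is an
integral `x'` with `A x' = b`, `⌊x⌋ ≤ x' ≤ ⌈x⌉` and `g ⬝ x' ≤ g ⬝ x`.
-/

set_option autoImplicit false

open Finset Matrix

namespace Pool.Agent.UNI

/-- a matrix with injective `mulVec` has a nonsingular square submatrix on all its columns -/
theorem exists_rows {I F : Type} [Fintype I] [Fintype F] [DecidableEq F] (C : Matrix I F ℝ)
    (h : ∀ v : F → ℝ, C *ᵥ v = 0 → v = 0) : ∃ ρ : F → I, (C.submatrix ρ id).det ≠ 0 := by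
  classical
  obtain ⟨κ, a, ha, hs, hli⟩ := exists_linearIndependent' ℝ (fun i : I => (C i : F → ℝ))
  have htop : Submodule.span ℝ (Set.range fun i : I => (C i : F → ℝ)) = ⊤ := by
    apply Submodule.eq_top_of_finrank_eq
    have h1 : Module.finrank ℝ (Submodule.span ℝ (Set.range fun i : I => (C i : F → ℝ))) =
        C.rank := by
      rw [Matrix.rank_eq_finrank_span_row]
      rfl
    rw [h1, Matrix.rank]
    apply LinearMap.finrank_range_of_inj
    rw [← LinearMap.ker_eq_bot, LinearMap.ker_eq_bot']
    intro v hv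
    exact h v hv
  rw [htop] at hs
  have B := Module.Basis.mk hli hs.ge
  have e : κ ≃ F := B.indexEquiv (Pi.basisFun ℝ F)
  refine ⟨fun f => a (e.symm f), ?_⟩
  have h2 : LinearIndependent ℝ (C.submatrix (fun f => a (e.symm f)) id).row := by
    exact hli.comp e.symm e.symm.injective
  intro h0
  obtain ⟨w, hw, hw0⟩ := Matrix.exists_vecMul_eq_zero_iff.2 h0
  apply hw
  have h3 := Fintype.linearIndependent_iff.1 h2 w (by
    funext j
    have := congrFun hw0 j
    simp only [Matrix.vecMul, dotProduct] at this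
    simpa [Finset.sum_apply, Matrix.row] using this)
  funext j
  exact h3 j

variable {I E : Type} [Fintype I] [Fintype E]

theorem tu_round (A : Matrix I E ℤ) (hA : A.IsTotallyUnimodular) (b : I → ℤ) (g : E → ℝ) :
    ∀ (N : ℕ) (x : E → ℝ), Nat.card {e : E // ∀ z : ℤ, x e ≠ z} ≤ N →
      (∀ i, ∑ e, (A i e : ℝ) * x e = b i) →
      ∃ x' : E → ℤ, (∀ i, ∑ e, A i e * x' e = b i) ∧
        (∀ e, ⌊x e⌋ ≤ x' e ∧ x' e ≤ ⌈x e⌉) ∧ ∑ e, g e * x' e ≤ ∑ e, g e * x e := by
  classical
  intro N
  induction N with
  | zero =>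
    intro x hx hAx
    have h1 : ∀ e, ∃ z : ℤ, x e = z := by
      intro e
      by_contra hcon
      push Not at hcon
      have : 0 < Nat.card {e : E // ∀ z : ℤ, x e ≠ z} := by
        rw [Nat.card_eq_fintype_card]
        exact Fintype.card_pos_iff.2 ⟨⟨e, hcon⟩⟩
      omega
    choose z hz using h1
    refine ⟨z, fun i => ?_, fun e => ?_, ?_⟩
    · have := hAx i
      simp only [hz] at this
      exact_mod_cast this
    · rw [hz e, Int.floor_intCast, Int.ceil_intCast]
      exact ⟨le_rfl, le_rfl⟩
    · simp only [hz]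
      exact le_rfl
  | succ N ih =>
    intro x hx hAx
    by_cases hker : ∃ v : E → ℝ, v ≠ 0 ∧ (∀ e, (∃ z : ℤ, x e = z) → v e = 0) ∧
        ∀ i, ∑ e, (A i e : ℝ) * v e = 0
    · -- move
      obtain ⟨v, hv0, hvF, hAv, hgv⟩ : ∃ v : E → ℝ, v ≠ 0 ∧ (∀ e, (∃ z : ℤ, x e = z) → v e = 0) ∧
          (∀ i, ∑ e, (A i e : ℝ) * v e = 0) ∧ ∑ e, g e * v e ≤ 0 := by
        obtain ⟨v, hv0, hvF, hAv⟩ := hker
        rcases le_total (∑ e, g e * v e) 0 with h | h
        · exact ⟨v, hv0, hvF, hAv, h⟩
        · refine ⟨-v, neg_ne_zero.2 hv0, fun e he => ?_, fun i => ?_, ?_⟩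
          · rw [Pi.neg_apply, hvF e he, neg_zero]
          · have : ∑ e, (A i e : ℝ) * (-v) e = -∑ e, (A i e : ℝ) * v e := by
              rw [← Finset.sum_neg_distrib]
              exact Finset.sum_congr rfl fun e _ => by rw [Pi.neg_apply]; ring
            rw [this, hAv i, neg_zero]
          · have : ∑ e, g e * (-v) e = -∑ e, g e * v e := by
              rw [← Finset.sum_neg_distrib]
              exact Finset.sum_congr rfl fun e _ => by rw [Pi.neg_apply]; ring
            rw [this]
            linarith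
      obtain ⟨T, hT⟩ : ∃ T : Finset E, T = Finset.univ.filter (fun e => v e ≠ 0) := ⟨_, rfl⟩
      have hTm : ∀ e, e ∈ T ↔ v e ≠ 0 := by
        intro e
        rw [hT]
        simp
      have hTne : T.Nonempty := by
        by_contra hcon
        rw [Finset.not_nonempty_iff_eq_empty] at hcon
        apply hv0
        funext e
        by_contra h
        have := (hTm e).2 h
        rw [hcon] at this
        simp at this
      obtain ⟨σ, hσ⟩ : ∃ σ : E → ℝ, ∀ e, σ e =
          if 0 < v e then ((⌈x e⌉ : ℝ) - x e) / v e else ((⌊x e⌋ : ℝ) - x e) / v e :=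
        ⟨_, fun _ => rfl⟩
      have hni : ∀ e, v e ≠ 0 → (⌊x e⌋ : ℝ) < x e ∧ x e < ⌈x e⌉ := by
        intro e he
        have h1 : ∀ z : ℤ, x e ≠ z := fun z hz => he (hvF e ⟨z, hz⟩)
        exact ⟨lt_of_le_of_ne (Int.floor_le _) (h1 _).symm, lt_of_le_of_ne (Int.le_ceil _) (h1 _)⟩
      have hσ0 : ∀ e, v e ≠ 0 → 0 < σ e := by
        intro e he
        obtain ⟨h1, h2⟩ := hni e he
        rw [hσ]
        split_ifs with h
        · exact div_pos (by linarith) h
        · exact div_pos_of_neg_of_neg (by linarith)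
            (lt_of_le_of_ne (not_lt.1 h) he)
      obtain ⟨e0, he0T, hmin⟩ := Finset.exists_min_image T σ hTne
      have he0 : v e0 ≠ 0 := (hTm e0).1 he0T
      obtain ⟨y, hy⟩ : ∃ y : E → ℝ, ∀ e, y e = x e + σ e0 * v e := ⟨_, fun _ => rfl⟩
      have hbox : ∀ e, (⌊x e⌋ : ℝ) ≤ y e ∧ y e ≤ ⌈x e⌉ := by
        intro e
        rw [hy]
        by_cases he : v e = 0
        · rw [he, mul_zero, add_zero]
          exact ⟨Int.floor_le _, Int.le_ceil _⟩
        · have h1 := hmin e ((hTm e).2 he)
          have h2 := hσ0 e0 he0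
          obtain ⟨h3, h4⟩ := hni e he
          rw [hσ e] at h1
          split_ifs at h1 with h
          · rw [le_div_iff₀ h] at h1
            constructor
            · have : 0 ≤ σ e0 * v e := by positivity
              linarith
            · linarith
          · have h5 : v e < 0 := lt_of_le_of_ne (not_lt.1 h) he
            rw [le_div_iff_of_neg h5] at h1
            constructor
            · linarith
            · have : σ e0 * v e ≤ 0 := mul_nonpos_of_nonneg_of_nonpos h2.le h5.le
              linarith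
      have hye0 : ∃ z : ℤ, y e0 = z := by
        rw [hy, hσ]
        split_ifs with h
        · refine ⟨⌈x e0⌉, ?_⟩
          rw [div_mul_cancel₀ _ he0]
          ring
        · refine ⟨⌊x e0⌋, ?_⟩
          rw [div_mul_cancel₀ _ he0]
          ring
      have hcard : Nat.card {e : E // ∀ z : ℤ, y e ≠ z} ≤ N := by
        have h1 : Nat.card {e : E // ∀ z : ℤ, y e ≠ z} <
            Nat.card {e : E // ∀ z : ℤ, x e ≠ z} := by
          rw [Nat.card_eq_fintype_card, Nat.card_eq_fintype_card, Fintype.card_subtype,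
            Fintype.card_subtype]
          apply Finset.card_lt_card
          rw [Finset.ssubset_iff_of_subset]
          · refine ⟨e0, ?_, ?_⟩
            · rw [Finset.mem_filter]
              exact ⟨Finset.mem_univ _, fun z hz => he0 (hvF e0 ⟨z, hz⟩)⟩
            · rw [Finset.mem_filter]
              rintro ⟨_, h⟩
              obtain ⟨z, hz⟩ := hye0
              exact h z hz
          · intro e he
            rw [Finset.mem_filter] at he ⊢
            refine ⟨Finset.mem_univ _, fun z hz => ?_⟩
            have h2 := hvF e ⟨z, hz⟩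
            apply he.2 z
            rw [hy, h2, mul_zero, add_zero, hz]
        omega
      obtain ⟨x', h1, h2, h3⟩ := ih y hcard (fun i => by
        have h4 : ∑ e, (A i e : ℝ) * y e =
            ∑ e, (A i e : ℝ) * x e + σ e0 * ∑ e, (A i e : ℝ) * v e := by
          rw [Finset.mul_sum, ← Finset.sum_add_distrib]
          exact Finset.sum_congr rfl fun e _ => by rw [hy]; ring
        rw [h4, hAv i, hAx i, mul_zero, add_zero])
      refine ⟨x', h1, fun e => ?_, ?_⟩
      · refine ⟨le_trans (Int.le_floor.2 (hbox e).1) (h2 e).1,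
          le_trans (h2 e).2 (Int.ceil_le.2 (hbox e).2)⟩
      · have h4 : ∑ e, g e * y e = ∑ e, g e * x e + σ e0 * ∑ e, g e * v e := by
          rw [Finset.mul_sum, ← Finset.sum_add_distrib]
          exact Finset.sum_congr rfl fun e _ => by rw [hy]; ring
        have h5 : σ e0 * ∑ e, g e * v e ≤ 0 :=
          mul_nonpos_of_nonneg_of_nonpos (hσ0 e0 he0).le hgv
        linarith
    · -- unimodular
      have hli : ∀ v : {e : E // ∀ z : ℤ, x e ≠ z} → ℝ,
          (A.map (Int.cast : ℤ → ℝ)).submatrix id Subtype.val *ᵥ v = 0 → v = 0 := by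
        intro v hv
        by_contra hv0
        apply hker
        obtain ⟨v', hv1, hv2⟩ : ∃ v' : E → ℝ, (∀ (e : E) (h : ∀ z : ℤ, x e ≠ z), v' e = v ⟨e, h⟩) ∧
            ∀ e : E, (¬ ∀ z : ℤ, x e ≠ z) → v' e = 0 :=
          ⟨fun e => if h : ∀ z : ℤ, x e ≠ z then v ⟨e, h⟩ else 0, fun e h => dif_pos h,
            fun e h => dif_neg h⟩
        refine ⟨v', ?_, ?_, ?_⟩
        · intro h
          apply hv0
          funext e
          have := congrFun h e.1
          rw [hv1 e.1 e.2] at this
          exact this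
        · rintro e ⟨z, hz⟩
          exact hv2 e fun h => h z hz
        · intro i
          have h1 := congrFun hv i
          rw [Matrix.mulVec, dotProduct] at h1
          simp only [Matrix.submatrix_apply, Matrix.map_apply, id, Pi.zero_apply] at h1
          rw [← h1]
          symm
          apply Finset.sum_of_injOn (fun e : {e : E // ∀ z : ℤ, x e ≠ z} => e.1)
          · exact fun a _ b _ h => Subtype.ext h
          · intro a _
            exact Finset.mem_coe.2 (Finset.mem_univ _)
          · intro e _ he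
            rw [hv2 e fun h => he ⟨⟨e, h⟩, Finset.mem_coe.2 (Finset.mem_univ _), rfl⟩, mul_zero]
          · intro a _
            rw [hv1 a.1 a.2]
      obtain ⟨ρ, hρ⟩ := exists_rows _ hli
      -- the square integral matrix
      obtain ⟨D, hD⟩ : ∃ D : Matrix {e : E // ∀ z : ℤ, x e ≠ z} {e : E // ∀ z : ℤ, x e ≠ z} ℤ,
          D = A.submatrix ρ Subtype.val := ⟨_, rfl⟩
      have hDr : ((A.map (Int.cast : ℤ → ℝ)).submatrix id
          (Subtype.val : {e : E // ∀ z : ℤ, x e ≠ z} → E)).submatrix ρ id =
          D.map (Int.cast : ℤ → ℝ) := by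
        rw [hD]
        ext i j
        rfl
      have hDd : D.det ≠ 0 := by
        intro h
        apply hρ
        rw [hDr, ← Int.cast_det, h, Int.cast_zero]
      have hD1 : D.det = 1 ∨ D.det = -1 := by
        obtain ⟨σ, hσ⟩ := (Matrix.isTotallyUnimodular_iff_fintype A).1 hA
          {e : E // ∀ z : ℤ, x e ≠ z} ρ Subtype.val
        rw [← hD] at hσ
        rcases σ with _ | _ | _
        · exact absurd hσ.symm hDd
        · right
          rw [← hσ]
          rfl
        · left
          rw [← hσ]
          rfl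
      have hDD : D.det * D.det = 1 := by
        rcases hD1 with h | h <;> rw [h] <;> norm_num
      -- the integral part
      obtain ⟨w, hw⟩ : ∃ w : E → ℤ, ∀ e, w e = if ∀ z : ℤ, x e ≠ z then 0 else ⌊x e⌋ :=
        ⟨_, fun _ => rfl⟩
      obtain ⟨u, hu⟩ : ∃ u : {e : E // ∀ z : ℤ, x e ≠ z} → ℤ,
          u = D.det • (D.adjugate *ᵥ fun r => b (ρ r) - ∑ e, A (ρ r) e * w e) := ⟨_, rfl⟩
      have hsol : ∀ r, ∑ e : {e : E // ∀ z : ℤ, x e ≠ z}, (D r e : ℝ) * x e.1 =
          ((b (ρ r) - ∑ e, A (ρ r) e * w e : ℤ) : ℝ) := by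
        intro r
        have h1 := hAx (ρ r)
        push_cast
        rw [← h1, ← Finset.sum_sub_distrib]
        apply Finset.sum_of_injOn (fun e : {e : E // ∀ z : ℤ, x e ≠ z} => e.1)
        · exact fun a _ b _ h => Subtype.ext h
        · intro a _
          exact Finset.mem_coe.2 (Finset.mem_univ _)
        · intro e _ he
          have hn : ¬ ∀ z : ℤ, x e ≠ z := fun h => he ⟨⟨e, h⟩, Finset.mem_coe.2 (Finset.mem_univ _), rfl⟩
          rw [hw, if_neg hn]
          push Not at hn
          obtain ⟨z, hz⟩ := hn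
          rw [hz, Int.floor_intCast]
          ring
        · intro a _
          rw [hw, if_pos a.2, hD]
          simp only [Matrix.submatrix_apply]
          push_cast
          ring
      have hint : ∀ e : {e : E // ∀ z : ℤ, x e ≠ z}, x e.1 = u e := by
        have h1 : (D.map (Int.cast : ℤ → ℝ)) *ᵥ (fun e => x e.1) =
            fun r => ((b (ρ r) - ∑ e, A (ρ r) e * w e : ℤ) : ℝ) := by
          funext r
          rw [← hsol r, Matrix.mulVec, dotProduct]
          rfl
        have h2 : (D.adjugate.map (Int.cast : ℤ → ℝ)) *ᵥ ((D.map (Int.cast : ℤ → ℝ)) *ᵥ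
            (fun e => x e.1)) = (D.det : ℝ) • (fun e => x e.1) := by
          rw [Matrix.mulVec_mulVec]
          have h3 : (D.adjugate.map (Int.cast : ℤ → ℝ)) * (D.map (Int.cast : ℤ → ℝ)) =
              (D.det : ℝ) • (1 : Matrix {e : E // ∀ z : ℤ, x e ≠ z} {e : E // ∀ z : ℤ, x e ≠ z} ℝ) := by
            have h4 := congrArg (fun M : Matrix {e : E // ∀ z : ℤ, x e ≠ z}
              {e : E // ∀ z : ℤ, x e ≠ z} ℤ => (Int.castRingHom ℝ).mapMatrix M) (Matrix.adjugate_mul D)
            simp only [map_mul] at h4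
            rw [show (D.det : ℝ) • (1 : Matrix {e : E // ∀ z : ℤ, x e ≠ z}
              {e : E // ∀ z : ℤ, x e ≠ z} ℝ) = (Int.castRingHom ℝ).mapMatrix (D.det •
                (1 : Matrix {e : E // ∀ z : ℤ, x e ≠ z} {e : E // ∀ z : ℤ, x e ≠ z} ℤ)) from ?_]
            · exact h4
            · ext i j
              rw [RingHom.mapMatrix_apply, Matrix.map_apply, Matrix.smul_apply, Matrix.smul_apply,
                smul_eq_mul, smul_eq_mul, Matrix.one_apply, Matrix.one_apply]
              split_ifs <;> simp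
          rw [h3, Matrix.smul_mulVec, Matrix.one_mulVec]
        intro e
        rw [h1] at h2
        have h5 := congrFun h2 e
        have h6 : (u e : ℝ) = (D.det : ℝ) * ((D.adjugate.map (Int.cast : ℤ → ℝ)) *ᵥ
            fun r => ((b (ρ r) - ∑ e, A (ρ r) e * w e : ℤ) : ℝ)) e := by
          rw [hu]
          simp only [Pi.smul_apply, smul_eq_mul, Matrix.mulVec, dotProduct, Matrix.map_apply]
          push_cast
          rfl
        rw [h6, h5, Pi.smul_apply, smul_eq_mul, ← mul_assoc]
        have h7 : (D.det : ℝ) * (D.det : ℝ) = 1 := by exact_mod_cast hDD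
        rw [h7, one_mul]
      have hall : ∀ e, ∃ z : ℤ, x e = z := by
        intro e
        by_contra hcon
        push Not at hcon
        exact hcon _ (hint ⟨e, hcon⟩)
      apply ih x _ hAx
      have : IsEmpty {e : E // ∀ z : ℤ, x e ≠ z} := ⟨fun e => by
        obtain ⟨z, hz⟩ := hall e.1
        exact e.2 z hz⟩
      rw [Nat.card_of_isEmpty]
      exact Nat.zero_le _

end Pool.Agent.UNI
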