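import Pool.Agent.Helper95_UNI.Lev
import Pool.Agent.Helper95_UNI.Tur

/-!
# Unimodular bases (MP_4e0dfc_co): the subset sums

`lat`: in every coset of `M ℤ^I` there is `b` such that `A y = b` has a real solution with
`|y| ≤ (M / 2) η`.  `subset_sum`: for `A` totally unimodular with `k` disjoint bases every vector is
congruent modulo `k` to the sum of a subset of the columns.
-/

set_option autoImplicit false

open Finset Matrix

namespace Pool.Agent.UNI

variable {I E : Type} [Fintype I] [Fintype E]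

theorem lat [DecidableEq I] [DecidableEq E] (A : Matrix I E ℤ) (k : ℕ) (hk : 0 < k)
    (J : Fin k → I → E) (hJ : Function.Injective (fun q : Fin k × I => J q.1 q.2))
    (hdet : ∀ j, (A.submatrix id (J j)).det ≠ 0) (η : ℝ) (hη : 1 < η * k) (M : ℕ) (hM : 0 < M)
    (r : I → ℤ) :
    ∃ (b : I → ℤ) (y : E → ℝ), (∀ i, (M : ℤ) ∣ b i - r i) ∧ (∀ e, |y e| ≤ M / 2 * η) ∧
      ∀ i, ∑ e, (A i e : ℝ) * y e = b i := by
  classical
  obtain ⟨c, hc, hG, hlev⟩ := leverage A k hk J hJ hdet η hη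
  obtain ⟨b, hb, hmin⟩ := Pool.Agent.HEC.H67.cst I (gram A c) M r hG
  obtain ⟨G, hGd⟩ : ∃ G : Matrix I I ℝ, G = gram A c := ⟨_, rfl⟩
  rw [← hGd] at hmin hG hlev
  obtain ⟨β, hβ⟩ : ∃ β : I → ℝ, β = fun i => (b i : ℝ) := ⟨_, rfl⟩
  obtain ⟨φ, hφ⟩ : ∃ φ : I → ℝ, φ = G⁻¹ *ᵥ β := ⟨_, rfl⟩
  have hMR : (0 : ℝ) < M := by exact_mod_cast hM
  have hsymm : (G⁻¹)ᵀ = G⁻¹ := by
    have h1 := hG.inv.1
    rw [Matrix.IsHermitian, Matrix.conjTranspose_eq_transpose_of_trivial] at h1
    exact h1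
  have hkey : ∀ (e : E) (z : ℤ), z = 1 ∨ z = -1 →
      0 ≤ 2 * M * (z : ℝ) * (col A e ⬝ᵥ φ) + M ^ 2 * (col A e ⬝ᵥ (G⁻¹ *ᵥ col A e)) := by
    intro e z hz
    have h1 := hmin (fun i => z * A i e)
    have h2 : (fun i => (b i : ℝ) + M * ((fun i => z * A i e) i : ℤ)) =
        β + ((M : ℝ) * z) • col A e := by
      funext i
      rw [hβ, Pi.add_apply, Pi.smul_apply, smul_eq_mul, col]
      push_cast
      ring
    rw [h2, ← hβ] at h1
    rw [Matrix.mulVec_add, Matrix.mulVec_smul, add_dotProduct, dotProduct_add, dotProduct_add,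
      smul_dotProduct, smul_dotProduct, dotProduct_smul, dotProduct_smul, ← hφ] at h1
    have h3 : β ⬝ᵥ (G⁻¹ *ᵥ col A e) = col A e ⬝ᵥ φ := by
      rw [hφ, Matrix.dotProduct_mulVec, ← Matrix.mulVec_transpose, hsymm, dotProduct_comm]
    rw [h3] at h1
    simp only [smul_eq_mul] at h1
    have hz2 : (z : ℝ) * z = 1 := by
      rcases hz with h | h <;> rw [h] <;> norm_num
    have h4 : (M : ℝ) * z * ((M : ℝ) * z * (col A e ⬝ᵥ (G⁻¹ *ᵥ col A e))) =
        M ^ 2 * (col A e ⬝ᵥ (G⁻¹ *ᵥ col A e)) := by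
      calc _ = (z : ℝ) * z * (M ^ 2 * (col A e ⬝ᵥ (G⁻¹ *ᵥ col A e))) := by ring
        _ = _ := by rw [hz2, one_mul]
    linarith
  refine ⟨b, fun e => c e * (col A e ⬝ᵥ φ), hb, fun e => ?_, fun i => ?_⟩
  · have h1 := hkey e 1 (Or.inl rfl)
    have h2 := hkey e (-1) (Or.inr rfl)
    have h3 := hlev e
    have h4 := hc e
    obtain ⟨q, hq⟩ : ∃ q : ℝ, q = col A e ⬝ᵥ (G⁻¹ *ᵥ col A e) := ⟨_, rfl⟩
    obtain ⟨p, hp⟩ : ∃ p : ℝ, p = col A e ⬝ᵥ φ := ⟨_, rfl⟩
    rw [← hq] at h1 h2 h3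
    rw [← hp] at h1 h2
    have h0 : |c e * (col A e ⬝ᵥ φ)| ≤ M / 2 * η := ?_
    · exact h0
    rw [← hp]
    push_cast at h1 h2
    have h5 : |p| ≤ M / 2 * q := by
      rw [abs_le]
      constructor
      · have : 0 ≤ (M : ℝ) * (2 * p + M * q) := by linarith
        have := nonneg_of_mul_nonneg_right this hMR
        linarith
      · have : 0 ≤ (M : ℝ) * (-2 * p + M * q) := by linarith
        have := nonneg_of_mul_nonneg_right this hMR
        linarith
    rw [abs_mul, abs_of_pos h4]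
    calc c e * |p| ≤ c e * (M / 2 * q) := mul_le_mul_of_nonneg_left h5 h4.le
      _ = M / 2 * (c e * q) := by ring
      _ ≤ M / 2 * η := mul_le_mul_of_nonneg_left h3 (by positivity)
  · have h1 : G *ᵥ φ = β := by
      rw [hφ, Matrix.mulVec_mulVec, Matrix.mul_nonsing_inv _ ((Matrix.isUnit_iff_isUnit_det _).1 hG.isUnit),
        Matrix.one_mulVec]
    have h2 := congrFun h1 i
    rw [hβ] at h2
    simp only at h2
    rw [← h2, hGd, gram, Matrix.sum_mulVec, Finset.sum_apply]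
    refine Finset.sum_congr rfl fun e _ => ?_
    rw [Matrix.smul_mulVec, Matrix.vecMulVec_mulVec, Pi.smul_apply]
    simp only [Pi.smul_apply, smul_eq_mul, col]
    rw [op_smul_eq_mul]
    ring

/-- Let `A` be a totally unimodular matrix whose columns contain `k` disjoint bases. Every integral
vector is congruent modulo `k` to the sum of a subset of the columns. -/
theorem subset_sum [DecidableEq I] [DecidableEq E] (A : Matrix I E ℤ)
    (hA : A.IsTotallyUnimodular) (k : ℕ) (hk : 0 < k)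
    (J : Fin k → I → E) (hJ : Function.Injective (fun q : Fin k × I => J q.1 q.2))
    (hdet : ∀ j, (A.submatrix id (J j)).det ≠ 0) (t : I → ℤ) :
    ∃ S : Finset E, ∀ i, (k : ℤ) ∣ ∑ e ∈ S, A i e - t i := by
  classical
  have hkR : (0 : ℝ) < k := by exact_mod_cast hk
  obtain ⟨N, hN⟩ : ∃ N : ℕ, N = Fintype.card E := ⟨_, rfl⟩
  obtain ⟨δ, hδ⟩ : ∃ δ : ℝ, δ = 1 / ((N : ℝ) + 1) := ⟨_, rfl⟩
  have hN1 : (0 : ℝ) < (N : ℝ) + 1 := by positivity
  have hδ0 : 0 < δ := by rw [hδ]; positivity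
  have hNδ : (N : ℝ) * δ < 1 := by
    rw [hδ, mul_one_div, div_lt_one hN1]
    linarith
  obtain ⟨η, hη⟩ : ∃ η : ℝ, η = (1 + δ) / k := ⟨_, rfl⟩
  have hηk : η * k = 1 + δ := by
    rw [hη, div_mul_cancel₀ _ hkR.ne']
  obtain ⟨b, y, hb, hy, hAy⟩ := lat A k hk J hJ hdet η (by rw [hηk]; linarith) (2 * k) (by omega)
    (fun i => 2 * t i - ∑ e, A i e)
  choose z hz using hb
  have hy' : ∀ e, |y e| ≤ 1 + δ := by
    intro e
    have h1 := hy e
    have h2 : ((2 * k : ℕ) : ℝ) / 2 * η = η * k := by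
      push_cast
      ring
    rw [h2, hηk] at h1
    exact h1
  -- the fractional point
  obtain ⟨x, hx⟩ : ∃ x : E → ℝ, ∀ e, x e = 1 / 2 + y e / 2 := ⟨_, fun _ => rfl⟩
  have hAx : ∀ i, ∑ e, (A i e : ℝ) * x e = ((t i + k * z i : ℤ) : ℝ) := by
    intro i
    have h1 : ∑ e, (A i e : ℝ) * x e = (∑ e, (A i e : ℝ)) / 2 + (∑ e, (A i e : ℝ) * y e) / 2 := by
      rw [Finset.sum_div, Finset.sum_div, ← Finset.sum_add_distrib]
      exact Finset.sum_congr rfl fun e _ => by rw [hx]; ring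
    have h2 : (b i : ℝ) = 2 * t i - ∑ e, (A i e : ℝ) + 2 * k * z i := by
      have h3 : b i = 2 * t i - ∑ e, A i e + 2 * k * z i := by
        have := hz i
        push_cast at this
        linarith
      rw [h3]
      push_cast
      ring
    rw [h1, hAy, h2]
    push_cast
    ring
  have hlow : ∀ e, -(δ / 2) ≤ x e := by
    intro e
    have := (abs_le.1 (hy' e)).1
    rw [hx]
    linarith
  have hupp : ∀ e, x e ≤ 1 + δ / 2 := by
    intro e
    have := (abs_le.1 (hy' e)).2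
    rw [hx]
    linarith
  have hδ1 : δ ≤ 1 := by
    rw [hδ, div_le_one hN1]
    have : (0 : ℝ) ≤ N := Nat.cast_nonneg _
    linarith
  -- the cost
  obtain ⟨g, hg⟩ : ∃ g : E → ℝ, ∀ e, g e = if x e < 0 then -1 else if 1 < x e then 1 else 0 :=
    ⟨_, fun _ => rfl⟩
  obtain ⟨x', hx1, hx2, hx3⟩ := tu_round A hA (fun i => t i + k * z i) g _ x le_rfl hAx
  obtain ⟨m, hm⟩ : ∃ m : E → ℤ, ∀ e, m e = if 1 < x e then 1 else 0 := ⟨_, fun _ => rfl⟩
  -- the excess at `e`
  have hexc : ∀ e, (m e : ℝ) ≤ g e * x' e ∧ g e * x e ≤ m e + δ / 2 ∧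
      (¬ (x' e = 0 ∨ x' e = 1) → (m e : ℝ) + 1 ≤ g e * x' e) := by
    intro e
    obtain ⟨h1, h2⟩ := hx2 e
    have h3 := hlow e
    have h4 := hupp e
    rw [hg, hm]
    by_cases hneg : x e < 0
    · have h5 : ¬ 1 < x e := by linarith
      have h6 : ⌊x e⌋ = -1 := by
        rw [Int.floor_eq_iff]
        push_cast
        constructor <;> linarith
      have h7 : ⌈x e⌉ ≤ 0 := by
        rw [Int.ceil_le]
        push_cast
        linarith
      rw [h6] at h1
      have h8 : x' e ≤ 0 := le_trans h2 h7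
      have h8R : (x' e : ℝ) ≤ 0 := by exact_mod_cast h8
      rw [if_pos hneg, if_neg h5]
      refine ⟨by push_cast; linarith, by push_cast; linarith, fun h => ?_⟩
      have h9 : x' e = -1 := by omega
      rw [h9]
      push_cast
      linarith
    · by_cases hone : 1 < x e
      · have h6 : 1 ≤ ⌊x e⌋ := by
          rw [Int.le_floor]
          push_cast
          linarith
        have h7 : ⌈x e⌉ ≤ 2 := by
          rw [Int.ceil_le]
          push_cast
          linarith
        have h8 : 1 ≤ x' e := le_trans h6 h1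
        have h8R : (1 : ℝ) ≤ (x' e : ℝ) := by exact_mod_cast h8
        rw [if_neg hneg, if_pos hone, if_pos hone]
        refine ⟨by push_cast; linarith, by push_cast; linarith, fun h => ?_⟩
        have h9 : x' e = 2 := by omega
        rw [h9]
        push_cast
        linarith
      · have h6 : 0 ≤ ⌊x e⌋ := by
          rw [Int.le_floor]
          push_cast
          linarith
        have h7 : ⌈x e⌉ ≤ 1 := by
          rw [Int.ceil_le]
          push_cast
          linarith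
        rw [if_neg hneg, if_neg hone, if_neg hone]
        refine ⟨by push_cast; linarith, by push_cast; linarith, fun h => ?_⟩
        exact absurd (show x' e = 0 ∨ x' e = 1 by omega) h
  have h01 : ∀ e, x' e = 0 ∨ x' e = 1 := by
    intro e0
    by_contra hcon
    have h1 : ∑ e, (m e : ℝ) + 1 ≤ ∑ e, g e * x' e := by
      have h2 : ∑ e, (m e : ℝ) + 1 = ∑ e, ((m e : ℝ) + if e = e0 then 1 else 0) := by
        rw [Finset.sum_add_distrib, Finset.sum_ite_eq' Finset.univ e0, if_pos (Finset.mem_univ _)]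
      rw [h2]
      refine Finset.sum_le_sum fun e _ => ?_
      by_cases h : e = e0
      · subst h
        rw [if_pos rfl]
        exact (hexc e).2.2 hcon
      · rw [if_neg h, add_zero]
        exact (hexc e).1
    have h2 : ∑ e, g e * x e ≤ ∑ e, (m e : ℝ) + N * (δ / 2) := by
      have h3 : ∑ e, (m e : ℝ) + N * (δ / 2) = ∑ e, ((m e : ℝ) + δ / 2) := by
        rw [Finset.sum_add_distrib, Finset.sum_const, Finset.card_univ, nsmul_eq_mul, hN]
      rw [h3]
      exact Finset.sum_le_sum fun e _ => (hexc e).2.1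
    have h4 : (N : ℝ) * (δ / 2) < 1 := by
      have : (0 : ℝ) ≤ N * δ := by positivity
      linarith
    linarith
  refine ⟨Finset.univ.filter (fun e => x' e = 1), fun i => ⟨z i, ?_⟩⟩
  have h1 : ∑ e ∈ Finset.univ.filter (fun e => x' e = 1), A i e = ∑ e, A i e * x' e := by
    rw [Finset.sum_filter]
    refine Finset.sum_congr rfl fun e _ => ?_
    rcases h01 e with h | h
    · rw [h]
      simp
    · rw [h]
      simp
  rw [h1, hx1 i]
  ring

end Pool.Agent.UNI
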