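import Pool.Agent.HEC.Stmts
import Pool.Agent.Helper41_HEC.RK1
import Pool.Agent.Helper67_HEC.CST

/-!
# Unimodular bases (MP_4e0dfc_co): small real solutions in every coset

`A` is an integral matrix (rows `I`, columns `E`) with `k` disjoint bases `J j` of columns. For every
`η > 1 / k` there are weights `c > 0` of the columns with all leverage scores at most `η`.
(Lemma A of helper84, note 3851, for matrices instead of graphs; adapted from the rows DLB and MIN.)
-/

set_option autoImplicit false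

open Finset Matrix

namespace Pool.Agent.UNI

open Pool.Agent.HEC

variable {I E : Type} [Fintype I] [Fintype E]

/-- the column `e`, real -/
def col (A : Matrix I E ℤ) (e : E) (i : I) : ℝ := (A i e : ℝ)

/-- the weighted Gram matrix -/
noncomputable def gram (A : Matrix I E ℤ) (c : E → ℝ) : Matrix I I ℝ :=
  ∑ e, c e • vecMulVec (col A e) (col A e)

theorem psd_term (x : I → ℝ) {a : ℝ} (ha : 0 ≤ a) : (a • vecMulVec x x).PosSemidef := by
  have h := posSemidef_vecMulVec_self_star x
  rw [star_trivial] at h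
  exact h.smul ha

/-- positive definiteness and lower bound for the determinant -/
theorem gram_basis [DecidableEq I] [DecidableEq E] (A : Matrix I E ℤ) (J : I → E)
    (hJ : Function.Injective J) (hdet : (A.submatrix id J).det ≠ 0) (c : E → ℝ)
    (hc : ∀ e, 0 < c e) :
    (gram A c).PosDef ∧ ∏ i, c (J i) ≤ (gram A c).det := by
  classical
  obtain ⟨B, hBdef⟩ : ∃ B : Matrix I I ℝ, B = fun i => col A (J i) := ⟨_, rfl⟩
  have hB : B = (A.submatrix id J)ᵀ.map (fun z : ℤ => (z : ℝ)) := by
    rw [hBdef]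
    ext i j
    rfl
  have hBd : B.det = (((A.submatrix id J).det : ℤ) : ℝ) := by
    rw [hB, ← Matrix.det_transpose (A.submatrix id J), Int.cast_det]
  have hdet0 : B.det ≠ 0 := by
    rw [hBd]
    exact_mod_cast hdet
  have hdet1 : 1 ≤ B.det ^ 2 := by
    rw [hBd]
    have h3 : 1 ≤ (A.submatrix id J).det ^ 2 := by
      have := Int.one_le_abs hdet
      rw [← sq_abs]
      nlinarith
    exact_mod_cast h3
  have hinj : Function.Injective B.mulVec := by
    intro p q hpq
    have h1 : B *ᵥ (p - q) = 0 := by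
      rw [Matrix.mulVec_sub]
      exact sub_eq_zero.mpr hpq
    by_contra hne
    have : ∃ v, v ≠ 0 ∧ B *ᵥ v = 0 := ⟨p - q, sub_ne_zero.2 hne, h1⟩
    exact hdet0 (Matrix.exists_mulVec_eq_zero_iff.1 this)
  obtain ⟨T, hT⟩ : ∃ T : Finset E, T = Finset.univ.image J := ⟨_, rfl⟩
  have hsumT : ∀ f : E → Matrix I I ℝ, ∑ e ∈ T, f e = ∑ i, f (J i) := by
    intro f
    rw [hT, Finset.sum_image (fun a _ b _ h => hJ h)]
  have hLT : ∑ e ∈ T, c e • vecMulVec (col A e) (col A e) =
      Bᴴ * diagonal (fun i => c (J i)) * B := by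
    rw [hsumT]
    ext j k
    rw [Matrix.sum_apply, Matrix.mul_apply]
    refine Finset.sum_congr rfl fun i _ => ?_
    rw [Matrix.mul_diagonal, Matrix.conjTranspose_apply, Matrix.smul_apply, vecMulVec_apply,
      smul_eq_mul, star_trivial, hBdef]
    ring
  have hP0 : (∑ e ∈ T, c e • vecMulVec (col A e) (col A e)).PosDef := by
    rw [hLT]
    exact (PosDef.diagonal fun i => hc _).conjTranspose_mul_mul_same hinj
  have hprod0 : 0 ≤ ∏ i, c (J i) := Finset.prod_nonneg fun e _ => (hc _).le
  have hD0 : ∏ i, c (J i) ≤ (∑ e ∈ T, c e • vecMulVec (col A e) (col A e)).det := by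
    rw [hLT, det_mul, det_mul, det_diagonal, det_conjTranspose, star_trivial]
    nlinarith
  have hind : ∀ S : Finset E, Disjoint S T →
      (∑ e ∈ S ∪ T, c e • vecMulVec (col A e) (col A e)).PosDef ∧
        ∏ i, c (J i) ≤ (∑ e ∈ S ∪ T, c e • vecMulVec (col A e) (col A e)).det := by
    intro S
    induction S using Finset.induction_on with
    | empty =>
      intro _
      rw [Finset.empty_union]
      exact ⟨hP0, hD0⟩
    | insert a S ha ih =>
      intro hd
      rw [Finset.disjoint_insert_left] at hd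
      obtain ⟨h1, h2⟩ := ih hd.2
      have h3 : a ∉ S ∪ T := by
        rw [Finset.mem_union]
        rintro (h | h)
        · exact ha h
        · exact hd.1 h
      rw [Finset.insert_union, Finset.sum_insert h3, add_comm]
      obtain ⟨h4, h5⟩ := Pool.Agent.HEC.H41.rk1 I _ (col A a) (c a) h1
      refine ⟨h1.add_posSemidef (psd_term _ (hc a).le), ?_⟩
      rw [h4]
      have h6 : 0 ≤ c a * (col A a ⬝ᵥ
          ((∑ e ∈ S ∪ T, c e • vecMulVec (col A e) (col A e))⁻¹ *ᵥ col A a)) :=
        mul_nonneg (hc a).le h5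
      nlinarith
  have h1 := hind Tᶜ (disjoint_compl_left)
  have h2 : Tᶜ ∪ T = (Finset.univ : Finset E) := by
    rw [Finset.union_comm]
    exact Finset.union_compl T
  rw [h2] at h1
  exact h1

theorem gram_update [DecidableEq E] (A : Matrix I E ℤ) (c : E → ℝ) (e : E) (x : ℝ) :
    gram A (Function.update c e x) =
      gram A c + (x - c e) • vecMulVec (col A e) (col A e) := by
  rw [← sub_eq_iff_eq_add', gram, gram, ← Finset.sum_sub_distrib,
    Finset.sum_eq_single e]
  · rw [Function.update_self, sub_smul]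
  · intro e' _ h
    rw [Function.update_of_ne h, sub_self]
  · intro h
    exact absurd (Finset.mem_univ e) h

theorem gram_cont [DecidableEq I] (A : Matrix I E ℤ) :
    Continuous fun c : E → ℝ => (gram A c).det := by
  apply Continuous.matrix_det
  unfold gram
  fun_prop

/-- weights with leverage scores at most `η` -/
theorem leverage [DecidableEq I] [DecidableEq E] (A : Matrix I E ℤ) (k : ℕ) (hk : 0 < k)
    (J : Fin k → I → E) (hJ : Function.Injective (fun q : Fin k × I => J q.1 q.2))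
    (hdet : ∀ j, (A.submatrix id (J j)).det ≠ 0) (η : ℝ) (hη : 1 < η * k) :
    ∃ c : E → ℝ, (∀ e, 0 < c e) ∧ (gram A c).PosDef ∧
      ∀ e, c e * (col A e ⬝ᵥ ((gram A c)⁻¹ *ᵥ col A e)) ≤ η := by
  classical
  have hkR : (0 : ℝ) < k := by exact_mod_cast hk
  have hJj : ∀ j, Function.Injective (J j) := by
    intro j a b hab
    have := @hJ (j, a) (j, b) hab
    exact (Prod.mk.inj this).2
  have hpd : ∀ c : E → ℝ, (∀ e, 0 < c e) → (gram A c).PosDef := fun c hc =>
    (gram_basis A (J ⟨0, hk⟩) (hJj _) (hdet _) c hc).1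
  -- the functional
  obtain ⟨F, hF⟩ : ∃ F : (E → ℝ) → ℝ,
      ∀ c, F c = Real.log (gram A c).det - η * ∑ e, Real.log (c e) := ⟨_, fun _ => rfl⟩
  obtain ⟨δ, hδ⟩ : ∃ δ : ℝ, δ = η - 1 / k := ⟨_, rfl⟩
  have hδ0 : 0 < δ := by
    have h4 : 1 / (k : ℝ) < η := by
      rw [div_lt_iff₀ hkR]; exact hη
    linarith
  have hlow : ∀ c : E → ℝ, (∀ e, 0 < c e) → (∀ e, c e ≤ 1) →
      ∀ e, δ * (-Real.log (c e)) ≤ F c := by
    intro c hc hc1 e
    have hw : ∀ e, 0 ≤ -Real.log (c e) := fun e => by
      have := Real.log_nonpos (hc e).le (hc1 e)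
      linarith
    -- the cheapest basis
    have hcheap : ∑ j : Fin k, ∑ i, -Real.log (c (J j i)) ≤ ∑ e, -Real.log (c e) := by
      rw [← Finset.sum_product']
      have h5 : ∑ q ∈ (Finset.univ : Finset (Fin k)) ×ˢ (Finset.univ : Finset I),
          -Real.log (c (J q.1 q.2)) =
          ∑ e ∈ Finset.univ.image (fun q : Fin k × I => J q.1 q.2), -Real.log (c e) := by
        rw [Finset.sum_image (fun a _ b _ h => hJ h)]
        rfl
      rw [h5]
      exact Finset.sum_le_sum_of_subset_of_nonneg (Finset.subset_univ _) (fun e _ _ => hw e)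
    obtain ⟨j, hj⟩ : ∃ j : Fin k, k * ∑ i, -Real.log (c (J j i)) ≤ ∑ e, -Real.log (c e) := by
      by_contra hcon
      push Not at hcon
      have hne : (Finset.univ : Finset (Fin k)).Nonempty := ⟨⟨0, hk⟩, Finset.mem_univ _⟩
      have h5 : ∑ j : Fin k, ∑ e, -Real.log (c e) <
          ∑ j : Fin k, k * ∑ i, -Real.log (c (J j i)) :=
        Finset.sum_lt_sum_of_nonempty hne (fun j _ => hcon j)
      rw [Finset.sum_const, Finset.card_univ, Fintype.card_fin, nsmul_eq_mul,
        ← Finset.mul_sum] at h5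
      have h6 := lt_of_mul_lt_mul_left h5 hkR.le
      linarith
    have h4 := (gram_basis A (J j) (hJj _) (hdet _) c hc).2
    have h5 : 0 < ∏ i, c (J j i) := Finset.prod_pos fun e _ => hc _
    have h6 : ∑ i, Real.log (c (J j i)) ≤ Real.log (gram A c).det := by
      rw [← Real.log_prod (fun e _ => (hc _).ne')]
      exact Real.log_le_log h5 h4
    have h7 : ∑ i, -Real.log (c (J j i)) ≤ 1 / k * ∑ e, -Real.log (c e) := by
      rw [one_div, inv_mul_eq_div, le_div_iff₀ hkR, mul_comm]
      exact hj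
    have h8 : -Real.log (c e) ≤ ∑ e, -Real.log (c e) :=
      Finset.single_le_sum (f := fun e => -Real.log (c e))
        (fun e _ => hw e) (Finset.mem_univ e)
    have h9 : ∑ e, -Real.log (c e) = -∑ e, Real.log (c e) := Finset.sum_neg_distrib _
    have h10 : ∑ i, -Real.log (c (J j i)) = -∑ i, Real.log (c (J j i)) :=
      Finset.sum_neg_distrib _
    calc δ * (-Real.log (c e)) ≤ δ * ∑ e, -Real.log (c e) :=
          mul_le_mul_of_nonneg_left h8 hδ0.le
      _ = η * (∑ e, -Real.log (c e)) - 1 / k * ∑ e, -Real.log (c e) := by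
          rw [hδ]; ring
      _ ≤ η * (∑ e, -Real.log (c e)) - ∑ i, -Real.log (c (J j i)) := by linarith
      _ = ∑ i, Real.log (c (J j i)) - η * ∑ e, Real.log (c e) := by
          rw [h9, h10]; ring
      _ ≤ F c := by rw [hF]; linarith
  -- the box
  obtain ⟨F1, hF1⟩ : ∃ F1 : ℝ, F1 = F (fun _ => 1) := ⟨_, rfl⟩
  obtain ⟨L, hL⟩ : ∃ L : ℝ, L = 1 + |F1| / δ := ⟨_, rfl⟩
  have hL0 : 0 < L := by
    have : 0 ≤ |F1| / δ := by positivity
    linarith
  have hLe : F1 < δ * L := by
    have h6 : |F1| / δ < L := by linarith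
    rw [div_lt_iff₀ hδ0] at h6
    calc F1 ≤ |F1| := le_abs_self _
      _ < L * δ := h6
      _ = _ := by ring
  obtain ⟨ε, hε⟩ : ∃ ε : ℝ, ε = Real.exp (-L) := ⟨_, rfl⟩
  have hε0 : 0 < ε := by rw [hε]; exact Real.exp_pos _
  have hε1 : ε < 1 := by
    rw [hε, Real.exp_lt_one_iff]; linarith
  obtain ⟨B, hB⟩ : ∃ B : Set (E → ℝ), B = Set.pi Set.univ fun _ => Set.Icc ε 1 := ⟨_, rfl⟩
  have hBc : IsCompact B := by
    rw [hB]
    exact isCompact_univ_pi fun _ => isCompact_Icc
  have h1B : (fun _ => (1 : ℝ)) ∈ B := by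
    rw [hB]
    exact fun e _ => ⟨hε1.le, le_rfl⟩
  have hBmem : ∀ c ∈ B, ∀ e, c e ∈ Set.Icc ε 1 := by
    intro c hc e
    rw [hB] at hc
    exact hc e trivial
  have hBpos : ∀ c ∈ B, ∀ e, 0 < c e := fun c hc e => lt_of_lt_of_le hε0 (hBmem c hc e).1
  have hcont : ContinuousOn F B := by
    have hFe : F = fun c => Real.log (gram A c).det - η * ∑ e, Real.log (c e) := funext hF
    rw [hFe]
    refine ContinuousOn.sub ?_ ?_
    · exact ContinuousOn.log (gram_cont A).continuousOn
        fun c hc => (hpd c (hBpos c hc)).det_pos.ne'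
    · refine ContinuousOn.mul continuousOn_const ?_
      refine continuousOn_finset_sum _ fun e _ => ?_
      exact ContinuousOn.log (continuous_apply e).continuousOn fun c hc => (hBpos c hc e).ne'
  obtain ⟨c, hcB, hmin⟩ := hBc.exists_isMinOn ⟨_, h1B⟩ hcont
  have hcpos := hBpos c hcB
  have hcle : ∀ e, c e ≤ 1 := fun e => (hBmem c hcB e).2
  have hcε : ∀ e, ε < c e := by
    intro e
    have h4 := hlow c hcpos hcle e
    have h5 : F c ≤ F1 := by rw [hF1]; exact hmin h1B
    have h6 : δ * (-Real.log (c e)) < δ * L := lt_of_le_of_lt (h4.trans h5) hLe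
    have h7 : -Real.log (c e) < L := lt_of_mul_lt_mul_left h6 hδ0.le
    rw [hε, ← Real.lt_log_iff_exp_lt (hcpos e)]
    linarith
  refine ⟨c, hcpos, hpd c hcpos, fun e => ?_⟩
  obtain ⟨G, hG⟩ : ∃ G : Matrix I I ℝ, G = gram A c := ⟨_, rfl⟩
  have hGpd : G.PosDef := by rw [hG]; exact hpd c hcpos
  rw [← hG]
  obtain ⟨l, hl⟩ : ∃ l : ℝ, l = c e * (col A e ⬝ᵥ (G⁻¹ *ᵥ col A e)) := ⟨_, rfl⟩
  rw [← hl]
  have hl0 : 0 ≤ l := by
    rw [hl]
    exact mul_nonneg (hcpos e).le (Pool.Agent.HEC.H41.rk1 I G (col A e) 0 hGpd).2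
  have heta : 0 < η := by
    have : 0 < 1 / (k : ℝ) := by positivity
    linarith
  -- the perturbation
  have hpert : ∀ τ : ℝ, 0 < τ → τ < 1 → ε ≤ (1 - τ) * c e → l * (1 - τ) ≤ η := by
    intro τ hτ0 hτ1 hτε
    obtain ⟨c', hc'⟩ : ∃ c' : E → ℝ, c' = Function.update c e ((1 - τ) * c e) := ⟨_, rfl⟩
    have hc'B : c' ∈ B := by
      rw [hB]
      intro e' _
      by_cases h : e' = e
      · subst h
        rw [hc', Function.update_self]
        refine ⟨hτε, ?_⟩
        have := hcpos e'
        have := hcle e'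
        nlinarith
      · rw [hc', Function.update_of_ne h]
        exact hBmem c hcB e'
    have h4 : F c ≤ F c' := hmin hc'B
    have h5 : gram A c' = G + (-(τ * c e)) • vecMulVec (col A e) (col A e) := by
      rw [hc', gram_update, hG]
      congr 2
      ring
    have h6 : (gram A c').det = G.det * (1 - τ * l) := by
      rw [h5, (Pool.Agent.HEC.H41.rk1 I G (col A e) _ hGpd).1, hl]
      ring
    have hdA : 0 < G.det := hGpd.det_pos
    have hd' : 0 < (gram A c').det := (hpd c' (hBpos c' hc'B)).det_pos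
    have h7 : 0 < 1 - τ * l := by
      rw [h6] at hd'
      exact pos_of_mul_pos_right hd' hdA.le
    have h8 : ∑ e', Real.log (c' e') = ∑ e', Real.log (c e') + Real.log (1 - τ) := by
      rw [← sub_eq_iff_eq_add', ← Finset.sum_sub_distrib, Finset.sum_eq_single e]
      · rw [hc', Function.update_self, Real.log_mul (by linarith) (hcpos e).ne']
        ring
      · intro e' _ h
        rw [hc', Function.update_of_ne h, sub_self]
      · intro h
        exact absurd (Finset.mem_univ e) h
    have h9 : η * Real.log (1 - τ) ≤ Real.log (1 - τ * l) := by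
      have h10 : F c' = F c + Real.log (1 - τ * l) - η * Real.log (1 - τ) := by
        rw [hF, hF, h6, h8, Real.log_mul hdA.ne' h7.ne', ← hG]
        ring
      linarith
    have h11 : Real.log (1 - τ * l) ≤ -(τ * l) := by
      have := Real.log_le_sub_one_of_pos h7
      linarith
    have h12 : -(τ / (1 - τ)) ≤ Real.log (1 - τ) := by
      have h13 := Real.one_sub_inv_le_log_of_pos (show 0 < 1 - τ by linarith)
      have h14 : 1 - (1 - τ)⁻¹ = -(τ / (1 - τ)) := by
        have h17' : (1 - τ) ≠ 0 := by linarith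
        field_simp
        ring
      linarith
    have h15 : η * -(τ / (1 - τ)) ≤ η * Real.log (1 - τ) :=
      mul_le_mul_of_nonneg_left h12 heta.le
    have h16 : τ * l ≤ η * (τ / (1 - τ)) := by nlinarith
    have h17 : 0 < 1 - τ := by linarith
    have h18 : τ * l * (1 - τ) ≤ η * τ := by
      calc τ * l * (1 - τ) ≤ η * (τ / (1 - τ)) * (1 - τ) :=
            mul_le_mul_of_nonneg_right h16 h17.le
        _ = η * τ := by field_simp
    have h19 : τ * (l * (1 - τ)) ≤ τ * η := by linarith
    exact le_of_mul_le_mul_left h19 hτ0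
  refine le_of_forall_pos_le_add fun ζ hζ => ?_
  have hr : ε / c e < 1 := by
    rw [div_lt_one (hcpos e)]; exact hcε e
  obtain ⟨τ, hτ0, hτ1, hτ2, hτ3⟩ : ∃ τ : ℝ, 0 < τ ∧ τ < 1 ∧ τ ≤ 1 - ε / c e ∧ l * τ ≤ ζ := by
    have hg : 0 < 1 - ε / c e := by linarith
    have hg' : 0 < ζ / (l + 1) := by positivity
    refine ⟨Min.min (1 / 2) (Min.min (1 - ε / c e) (ζ / (l + 1))), ?_, ?_, ?_, ?_⟩
    · exact lt_min (by norm_num) (lt_min hg hg')
    · exact lt_of_le_of_lt (min_le_left _ _) (by norm_num)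
    · exact (min_le_right _ _).trans (min_le_left _ _)
    · have h20 : Min.min (1 / 2) (Min.min (1 - ε / c e) (ζ / (l + 1))) ≤ ζ / (l + 1) :=
        (min_le_right _ _).trans (min_le_right _ _)
      calc l * _ ≤ l * (ζ / (l + 1)) := mul_le_mul_of_nonneg_left h20 hl0
        _ ≤ (l + 1) * (ζ / (l + 1)) := mul_le_mul_of_nonneg_right (by linarith) hg'.le
        _ = ζ := by field_simp
  have h21 := hpert τ hτ0 hτ1 (by
    have h22 : ε / c e ≤ 1 - τ := by linarith
    rwa [div_le_iff₀ (hcpos e)] at h22)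
  nlinarith

end Pool.Agent.UNI
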