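import Pool.Agent.Helper75_AT.Flag
import Pool.Agent.Helper75_AT.Perm

set_option autoImplicit false

namespace Pool.Agent.Helper95_UNI.TightChains

open Module Pool.Agent.AT75

/-- The number of columns of `[B_1 B_2 ... B_p]` (with multiplicity) which lie in the subspace
`U`. -/
noncomputable def cols {p n : ℕ} (B : Fin p → Matrix (Fin n) (Fin n) (ZMod p))
    (U : Submodule (ZMod p) (Fin n → ZMod p)) : ℕ :=
  Nat.card {c : Fin p × Fin n // (fun k => B c.1 k c.2) ∈ U}

/-- The nullity of `S` relative to `P`: the number of columns in `S` minus the number of columns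
in `P`, minus the dimension of `S` modulo `P`. -/
noncomputable def nul {p n : ℕ} (B : Fin p → Matrix (Fin n) (Fin n) (ZMod p))
    (P S : Submodule (ZMod p) (Fin n → ZMod p)) : ℤ :=
  ((cols B S : ℤ) - cols B P) - ((finrank (ZMod p) S : ℤ) - finrank (ZMod p) P)

/-- Some choice of `(p-1)n` columns of `[B_1 ... B_p]` is an AT-basis (the conclusion of the
frozen statement S08675). -/
def HasATBasis {p n : ℕ} (B : Fin p → Matrix (Fin n) (Fin n) (ZMod p)) : Prop :=
  ∃ f : Fin (p - 1) × Fin n → Fin p × Fin n, Function.Injective f ∧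
    Matrix.permanent
      (Matrix.of (fun (r c : Fin (p - 1) × Fin n) => B (f c).1 r.2 (f c).2)) ≠ 0

/-- the column with index `c` -/
def col {p n : ℕ} (B : Fin p → Matrix (Fin n) (Fin n) (ZMod p)) (c : Fin p × Fin n) :
    Fin n → ZMod p := fun k => B c.1 k c.2

lemma cols_eq {p n : ℕ} [Fact p.Prime] (B : Fin p → Matrix (Fin n) (Fin n) (ZMod p))
    (U : Submodule (ZMod p) (Fin n → ZMod p)) : cols B U = cnt (col B) Finset.univ U := by
  classical
  unfold cols cnt
  rw [Nat.card_eq_fintype_card, Fintype.card_subtype]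
  rfl

lemma cap {p n : ℕ} [hp : Fact p.Prime] (B : Fin p → Matrix (Fin n) (Fin n) (ZMod p))
    (hB : ∀ j, (B j).det ≠ 0) (U : Submodule (ZMod p) (Fin n → ZMod p)) :
    cnt (col B) Finset.univ U ≤ p * finrank (ZMod p) U := by
  classical
  unfold cnt
  have h1 : ∀ j : Fin p, (Finset.univ.filter (fun i : Fin n => col B (j, i) ∈ U)).card ≤
      finrank (ZMod p) U := by
    intro j
    have hli : LinearIndependent (ZMod p) (fun i : Fin n => col B (j, i)) := by
      have := Matrix.linearIndependent_cols_of_det_ne_zero (hB j)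
      exact this
    set T := Finset.univ.filter (fun i : Fin n => col B (j, i) ∈ U) with hT
    have hli2 : LinearIndependent (ZMod p)
        (fun i : T => (⟨col B (j, i), (Finset.mem_filter.1 i.2).2⟩ : U)) := by
      apply LinearIndependent.of_comp U.subtype
      exact hli.comp (fun i : T => (i : Fin n)) Subtype.val_injective
    have := hli2.fintype_card_le_finrank
    simpa using this
  have h2 : (Finset.univ.filter (fun c : Fin p × Fin n => col B c ∈ U)).card =
      ∑ j : Fin p, (Finset.univ.filter (fun i : Fin n => col B (j, i) ∈ U)).card := by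
    rw [Finset.card_filter, Fintype.sum_prod_type]
    apply Finset.sum_congr rfl
    intro j _
    rw [Finset.card_filter]
  rw [h2]
  calc ∑ j : Fin p, (Finset.univ.filter (fun i : Fin n => col B (j, i) ∈ U)).card
      ≤ ∑ _j : Fin p, finrank (ZMod p) U := Finset.sum_le_sum (fun j _ => h1 j)
    _ = p * finrank (ZMod p) U := by simp

lemma cols_top {p n : ℕ} (B : Fin p → Matrix (Fin n) (Fin n) (ZMod p)) :
    cols B ⊤ = p * n := by
  unfold cols
  simp

/-- **Criterion for the Alon-Tarsi basis conjecture.** -/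
theorem result :
    ∀ p : ℕ, p.Prime → ∀ (n : ℕ) (B : Fin p → Matrix (Fin n) (Fin n) (ZMod p)),
      (∀ j, (B j).det ≠ 0) →
      ∀ (m : ℕ) (U : ℕ → Submodule (ZMod p) (Fin n → ZMod p)),
      U 0 = ⊥ → U m = ⊤ → (∀ i < m, U i ≤ U (i + 1)) →
      (∀ i ≤ m, cols B (U i) = p * finrank (ZMod p) (U i)) →
      (∀ i < m, ∀ H S : Submodule (ZMod p) (Fin n → ZMod p),
        U i ≤ H → H < S → S < U (i + 1) →
        ∀ s : ℕ, 2 ≤ s → s ≤ p * (finrank (ZMod p) (U (i + 1)) - finrank (ZMod p) S) →
          (s : ℤ) ≤ nul B (U i) H → (s : ℤ) ≤ nul B (U i) S → ¬ cols B S ≡ s [MOD p]) →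
      HasATBasis B := by
  classical
  intro p hp n B hB m U h0 hm hmono htight hcond
  have : Fact p.Prime := ⟨hp⟩
  -- the polynomial ring data
  let D : Dual (ZMod p) (Fin n → ZMod p) →
      Derivation (ZMod p) (MvPolynomial (Fin n) (ZMod p)) (MvPolynomial (Fin n) (ZMod p)) :=
    fun u => MvPolynomial.mkDerivation (ZMod p) (fun i => MvPolynomial.C (u (Pi.single i 1)))
  have hD : ∀ u v, D u (linF p n v) = algebraMap (ZMod p) _ (u v) := by
    intro u v
    rw [linF_apply, map_sum]
    have h1 : ∀ i, D u (v i • (MvPolynomial.X i : MvPolynomial (Fin n) (ZMod p))) =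
        MvPolynomial.C (u (v i • Pi.single i 1)) := by
      intro i
      rw [Derivation.map_smul]
      show v i • (MvPolynomial.mkDerivation (ZMod p) (fun i => MvPolynomial.C (u (Pi.single i 1))))
        (MvPolynomial.X i) = _
      rw [MvPolynomial.mkDerivation_X, map_smul, MvPolynomial.smul_eq_C_mul, smul_eq_mul,
        MvPolynomial.C_mul]
    rw [Finset.sum_congr rfl (fun i _ => h1 i), ← map_sum, ← map_sum]
    have h2 : ∑ i, v i • (Pi.single i 1 : Fin n → ZMod p) = v := by
      funext k
      simp [Finset.sum_apply, Pi.single_apply]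
    rw [h2]; rfl
  have hI1 : ∀ v, linF p n v ^ p ∈ Ipow p n := by
    intro v
    rw [linF_apply, sum_pow_char]
    apply Ideal.sum_mem
    intro i _
    rw [smul_pow, MvPolynomial.smul_eq_C_mul]
    apply Ideal.mul_mem_left
    exact Ideal.subset_span ⟨i, rfl⟩
  have hI2 : ∀ u x, x ∈ Ipow p n → D u x ∈ Ipow p n := by
    intro u x hx
    unfold Ipow at hx ⊢
    induction hx using Submodule.span_induction with
    | mem x hx =>
      obtain ⟨i, rfl⟩ := hx
      rw [Derivation.leibniz_pow]
      simp
    | zero => simp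
    | add x y _ _ hx hy => rw [map_add]; exact Ideal.add_mem _ hx hy
    | smul r x hx' hx =>
      rw [smul_eq_mul, Derivation.leibniz]
      apply Ideal.add_mem
      · exact Ideal.mul_mem_left _ _ hx
      · rw [smul_eq_mul, mul_comm]
        exact Ideal.mul_mem_left _ _ hx'
  have hI3 : (1 : MvPolynomial (Fin n) (ZMod p)) ∉ Ipow p n := by
    intro h
    have h1 : Ipow p n ≤ RingHom.ker (MvPolynomial.constantCoeff
        (R := ZMod p) (σ := Fin n)) := by
      unfold Ipow
      apply Ideal.span_le.2
      rintro x ⟨i, rfl⟩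
      simp [hp.ne_zero]
    have h2 := h1 h
    rw [RingHom.mem_ker, map_one] at h2
    exact one_ne_zero h2
  -- build the set along the chain
  have hbuild : ∀ i ≤ m, ∃ C : Finset (Fin p × Fin n), (∀ c ∈ C, col B c ∈ U i) ∧
      C.card = (p - 1) * finrank (ZMod p) (U i) ∧ pr (linF p n) (col B) C ∉ Ipow p n := by
    intro i
    induction i with
    | zero =>
      intro _
      refine ⟨∅, by simp, ?_, ?_⟩
      · rw [h0]; simp
      · simpa [pr] using hI3
    | succ i ih =>
      intro hi
      obtain ⟨C, hC, hCc, hCn⟩ := ih (by omega)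
      have htP := htight i (by omega)
      have htQ := htight (i + 1) hi
      obtain ⟨C', _, hC'Q, hC'c, hC'n⟩ := step_abs (p := p) (linF p n) D hD (Ipow p n) hI1 hI2
        (col B) Finset.univ (cap B hB) (U i) (U (i + 1)) (hmono i (by omega))
        (by rw [← cols_eq]; exact htP) (by rw [← cols_eq]; exact htQ)
        (fun S hPS hSQ s hs hsle h1 h2 H hPH hHS => by
          simp only [← cols_eq] at h1 h2 ⊢
          by_contra hcon
          push Not at hcon
          refine hcond i (by omega) H S hPH hHS hSQ s hs hsle ?_ ?_ ?_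
          · unfold nul; omega
          · unfold nul; omega
          · have h3 : finrank (ZMod p) (U i) ≤ finrank (ZMod p) S := Submodule.finrank_mono hPS
            have h4 : p ∣ cols B (U i) := by rw [htP]; exact Dvd.intro _ rfl
            have h5 : p ∣ cols B S - s := by
              have h6 : cols B S - s = (cols B S - cols B (U i) - s) + cols B (U i) := by omega
              rw [h6]; exact Dvd.dvd.add h2 h4
            exact ((Nat.modEq_iff_dvd' (by omega)).2 h5).symm)
        C hC hCc hCn
      have hdis : Disjoint C C' := by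
        rw [Finset.disjoint_left]
        intro c hc hc'
        exact (hC'Q c hc').2 (hC c hc)
      refine ⟨C ∪ C', ?_, ?_, ?_⟩
      · intro c hc
        rcases Finset.mem_union.1 hc with hc | hc
        · exact hmono i (by omega) (hC c hc)
        · exact (hC'Q c hc).1
      · rw [Finset.card_union_of_disjoint hdis, hCc, hC'c, ← mul_add]
        congr 1
        have := Submodule.finrank_mono (hmono i (by omega))
        omega
      · rw [pr_union _ _ hdis]; exact hC'n
  obtain ⟨C, -, hCc, hCn⟩ := hbuild m le_rfl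
  have hn : finrank (ZMod p) (U m) = n := by
    rw [hm, finrank_top]; simp
  rw [hn] at hCc
  -- an enumeration of C
  have hcard : Fintype.card (Fin (p - 1) × Fin n) = Fintype.card C := by
    rw [Fintype.card_coe, hCc]; simp
  let e : (Fin (p - 1) × Fin n) ≃ C := Fintype.equivOfCardEq hcard
  refine ⟨fun c => (e c : Fin p × Fin n), fun c c' h => e.injective (Subtype.ext h), ?_⟩
  apply permanent_ne (fun c => col B (e c))
  have h1 : ∏ c, linF p n (col B (e c)) = pr (linF p n) (col B) C := by
    unfold pr
    rw [← Finset.prod_coe_sort C]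
    exact Equiv.prod_comp e (fun c : C => linF p n (col B c))
  rw [h1]; exact hCn

/-- Corollary: a chain of subspaces `U_i` with exactly `p dim U_i` columns in `U_i` and with steps
of dimension at most 2. -/
theorem of_steps_le_two (p : ℕ) (hp : p.Prime) (n : ℕ)
    (B : Fin p → Matrix (Fin n) (Fin n) (ZMod p)) (hB : ∀ j, (B j).det ≠ 0)
    (m : ℕ) (U : ℕ → Submodule (ZMod p) (Fin n → ZMod p))
    (h0 : U 0 = ⊥) (hm : U m = ⊤) (hmono : ∀ i < m, U i ≤ U (i + 1))
    (htight : ∀ i ≤ m, cols B (U i) = p * finrank (ZMod p) (U i))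
    (hstep : ∀ i < m, finrank (ZMod p) (U (i + 1)) ≤ finrank (ZMod p) (U i) + 2) :
    HasATBasis B := by
  have : Fact p.Prime := ⟨hp⟩
  refine result p hp n B hB m U h0 hm hmono htight ?_
  intro i hi H S hUH hHS hSU s hs _ hH _
  exfalso
  have h1 := Submodule.finrank_lt_finrank_of_lt hHS
  have h2 := Submodule.finrank_lt_finrank_of_lt hSU
  have h3 := Submodule.finrank_mono hUH
  have h4 := hstep i hi
  have h5 : U i = H := Submodule.eq_of_le_of_finrank_le hUH (by omega)
  subst h5
  unfold nul at hH
  omega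

/-- the trivial chain -/
def triv (p n : ℕ) : ℕ → Submodule (ZMod p) (Fin n → ZMod p)
  | 0 => ⊥
  | _ + 1 => ⊤

lemma triv_tight {p n : ℕ} (hp : p.Prime) (B : Fin p → Matrix (Fin n) (Fin n) (ZMod p))
    (hB : ∀ j, (B j).det ≠ 0) (i : ℕ) :
    cols B (triv p n i) = p * finrank (ZMod p) (triv p n i) := by
  have : Fact p.Prime := ⟨hp⟩
  cases i with
  | zero =>
    have h1 := cap B hB ⊥
    rw [← cols_eq] at h1
    have h2 : finrank (ZMod p) (⊥ : Submodule (ZMod p) (Fin n → ZMod p)) = 0 := finrank_bot _ _
    rw [h2] at h1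
    show cols B ⊥ = p * finrank (ZMod p) (⊥ : Submodule (ZMod p) (Fin n → ZMod p))
    rw [h2]; omega
  | succ i =>
    show cols B ⊤ = p * finrank (ZMod p) (⊤ : Submodule (ZMod p) (Fin n → ZMod p))
    rw [cols_top, finrank_top]
    simp

/-- Corollary: the conjecture holds for `n ≤ 2`. -/
theorem of_le_two (p : ℕ) (hp : p.Prime) (n : ℕ) (hn : n ≤ 2)
    (B : Fin p → Matrix (Fin n) (Fin n) (ZMod p)) (hB : ∀ j, (B j).det ≠ 0) :
    HasATBasis B := by
  have : Fact p.Prime := ⟨hp⟩
  refine of_steps_le_two p hp n B hB 1 (triv p n) rfl rfl ?_ ?_ ?_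
  · intro i hi
    have : i = 0 := by omega
    subst this; exact bot_le
  · intro i _
    exact triv_tight hp B hB i
  · intro i hi
    have : i = 0 := by omega
    subst this
    show finrank (ZMod p) (⊤ : Submodule (ZMod p) (Fin n → ZMod p)) ≤ _
    rw [finrank_top]
    simp only [Module.finrank_fintype_fun_eq_card, Fintype.card_fin]
    omega

/-- Corollary: the conjecture holds if no subspace of dimension `d ≤ n - 2` contains more than
`d + 1` of the columns. -/
theorem of_sparse (p : ℕ) (hp : p.Prime) (n : ℕ)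
    (B : Fin p → Matrix (Fin n) (Fin n) (ZMod p)) (hB : ∀ j, (B j).det ≠ 0)
    (h : ∀ H : Submodule (ZMod p) (Fin n → ZMod p), finrank (ZMod p) H + 2 ≤ n →
      cols B H ≤ finrank (ZMod p) H + 1) :
    HasATBasis B := by
  have : Fact p.Prime := ⟨hp⟩
  refine result p hp n B hB 1 (triv p n) rfl rfl ?_ ?_ ?_
  · intro i hi
    have : i = 0 := by omega
    subst this; exact bot_le
  · intro i _
    exact triv_tight hp B hB i
  · intro i hi H S _ hHS hST s hs _ hH _
    exfalso
    have : i = 0 := by omega
    subst this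
    have hST' : S < ⊤ := hST
    have h0 := triv_tight hp B hB 0
    have hH' : (s : ℤ) ≤ nul B (triv p n 0) H := hH
    have h1 := Submodule.finrank_lt_finrank_of_lt hHS
    have h2 := Submodule.finrank_lt_finrank_of_lt hST'
    rw [finrank_top] at h2
    simp only [Module.finrank_fintype_fun_eq_card, Fintype.card_fin] at h2
    have h3 := h H (by omega)
    have h4 : finrank (ZMod p) (triv p n 0) = 0 := finrank_bot _ _
    rw [h4] at h0
    unfold nul at hH'
    rw [h0, h4] at hH'
    omega

end Pool.Agent.Helper95_UNI.TightChains
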